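import Pool.Agent.E8helper85.DG.Pts
import Pool.Agent.E8helper85.DG.Cov

/-!
# Freiman homomorphisms of the Taylor exponents of entire curves

Let `X` be a complex projective algebraic set, given by forms of degree at most `d`, and let `f` be an entire
curve in `X`, given by entire functions `f_0, …, f_n` without common factor conditions. Let `S` be a set which
contains all exponents of the Taylor series of the `f_j` at the origin and let `φ : S → {0, …, E}` be a Freiman
homomorphism of order `d`: `φ(s_1) + ⋯ + φ(s_d)` depends only on `s_1 + ⋯ + s_d`. The part `f^(c)` of `f` consists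
of the terms with `φ(s) = c`, so `f = f^(0) + ⋯ + f^(E)`. For example `S` may be a union of `E + 1` consecutive
residue classes modulo `m > d E` (a set of positive density) and `f^(c)` the part in one of these classes; then all
parts are proportional to `f` if and only if `f(ζ z)` and `f(z)` are the same point of the projective space for all
`z`, `ζ = exp (2 π i / m)`.

Theorem. If some part is not proportional to `f` then for all `z` outside a closed discrete set there is a
nonconstant rational curve of degree at most `E` in `X` through the point `f(z)`, namely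
`w ↦ ∑_c w^c f^(c)(z)`. So all these entire curves are contained in the Zariski closure of the union of the
nonconstant rational curves of degree at most `E` in `X`, and this is the Zariski closure of the union of their
images. If such a curve is Zariski-dense in a projective variety `X` then `X` is covered by rational curves, and all
pluricanonical forms on the smooth projective models of `X` vanish.

Proof. `F(∑_c w^c f^(c)(z))` is a power series in `z` and `w`, homogeneity and the Freiman property show that in the
coefficient of `z^σ` only one power of `w` occurs; as `F(f) = 0` (`w = 1`) all coefficients vanish.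
-/

set_option autoImplicit false

namespace Pool.Agent.E8helper85.Variants.FreimanExponentsH85

open MvPolynomial
open Pool.Agent.TH143.GT (FunField ZDense Covered Pluricanonical)
open Pool.Agent.E8helper85.DG (RatCurve IsPart)

variable {n : ℕ} {ι : Type}

/-- `f` is an entire curve in the projective algebraic set `F = 0` (given by entire functions) and there are a set
`S` of natural numbers which contains all exponents of the Taylor series of its coordinates at the origin and a
Freiman homomorphism `φ` of order `d` from `S` to `{0, …, E}` such that some part `g` of `f`, given by the exponents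
`s` with `φ s = c`, is not proportional to `f`. -/
def FlexCurve (F : ι → MvPolynomial (Fin (n + 1)) ℂ) (d E : ℕ) (f : ℂ → Fin (n + 1) → ℂ) : Prop :=
  (∀ j, Differentiable ℂ fun z => f z j) ∧ (∀ z i, eval (f z) (F i) = 0) ∧
    ∃ (S : Set ℕ) (φ : ℕ → ℕ), IsAddFreimanHom d S (Set.Iic E) φ ∧
      (∀ j, ∀ s ∉ S, iteratedDeriv s (fun z => f z j) 0 = 0) ∧
      ∃ c g, IsPart φ c f g ∧ ∃ z j k, g z j * f z k ≠ g z k * f z j

/-- (the cone over) the Zariski closure of the union of the images of the curves of `FlexCurve F d E` -/
def SpFlex (F : ι → MvPolynomial (Fin (n + 1)) ℂ) (d E : ℕ) : Set (Fin (n + 1) → ℂ) :=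
  {v | ∀ (G : MvPolynomial (Fin (n + 1)) ℂ) (a : ℕ), G.IsHomogeneous a →
    (∀ f, FlexCurve F d E f → ∀ z, eval (f z) G = 0) → eval v G = 0}

/-- (the cone over) the Zariski closure of the union of the nonconstant rational curves of degree at most `E` in
the projective algebraic set `F = 0` -/
def SpRat (F : ι → MvPolynomial (Fin (n + 1)) ℂ) (E : ℕ) : Set (Fin (n + 1) → ℂ) :=
  {v | ∀ (G : MvPolynomial (Fin (n + 1)) ℂ) (a : ℕ), G.IsHomogeneous a →
    (∀ P, RatCurve F E P → ∀ t, eval (fun j => (P j).eval t) G = 0) → eval v G = 0}

/-- A nonconstant rational curve, given by polynomials of degree at most `E`, has such exponents. -/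
theorem flex_of_rat {F : ι → MvPolynomial (Fin (n + 1)) ℂ} {d E : ℕ} {P : Fin (n + 1) → Polynomial ℂ}
    (hP : RatCurve F E P) : FlexCurve F d E fun z j => (P j).eval z := by
  have hco : ∀ j s, iteratedDeriv s (fun z => (P j).eval z) 0 = s.factorial * (P j).coeff s := by
    intro j s
    have h1 : iteratedDeriv s (fun z => (P j).eval z) = fun z => (Polynomial.derivative^[s] (P j)).eval z := by
      induction s with
      | zero => simp
      | succ s ih =>
        rw [iteratedDeriv_succ, ih]
        funext z
        rw [Polynomial.deriv, Function.iterate_succ_apply']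
    rw [h1]
    show (Polynomial.derivative^[s] (P j)).eval 0 = _
    rw [← Polynomial.coeff_zero_eq_eval_zero, Polynomial.coeff_iterate_derivative, zero_add,
      Nat.descFactorial_self, nsmul_eq_mul]
  refine ⟨fun j => (P j).differentiable, fun z i => ?_, Set.Iic E, id, ?_, ?_, ?_⟩
  · have h1 := MvPolynomial.comp_aeval_apply (f := P) (Polynomial.aeval (R := ℂ) z) (F i)
    rw [hP.mem i, map_zero] at h1
    rw [← MvPolynomial.coe_aeval_eq_eval]
    exact h1.symm
  · exact ⟨fun s hs => hs, fun s t _ _ _ _ h => by simpa using h⟩
  · intro j s hs
    rw [hco, Polynomial.coeff_eq_zero_of_natDegree_lt (lt_of_le_of_lt (hP.deg j) (not_le.1 hs)), mul_zero]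
  · by_contra hcon
    push Not at hcon
    have hpart : ∀ c, IsPart id c (fun z j => (P j).eval z) fun z j => (P j).coeff c * z ^ c := by
      intro c
      refine ⟨fun j => by fun_prop, fun j s => ?_⟩
      have h2 : iteratedDeriv s (fun z : ℂ => (Polynomial.monomial c ((P j).coeff c)).eval z) 0 =
          s.factorial * (Polynomial.monomial c ((P j).coeff c)).coeff s := by
        have h1 : ∀ Q : Polynomial ℂ, iteratedDeriv s (fun z => Q.eval z) =
            fun z => (Polynomial.derivative^[s] Q).eval z := by
          intro Q
          induction s with
          | zero => simp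
          | succ s ih =>
            rw [iteratedDeriv_succ, ih]
            funext z
            rw [Polynomial.deriv, Function.iterate_succ_apply']
        rw [h1]
        show (Polynomial.derivative^[s] _).eval 0 = _
        rw [← Polynomial.coeff_zero_eq_eval_zero, Polynomial.coeff_iterate_derivative, zero_add,
          Nat.descFactorial_self, nsmul_eq_mul]
      simp only [Polynomial.eval_monomial] at h2
      rw [h2, hco, Polynomial.coeff_monomial]
      by_cases hc : s = c
      · subst hc
        simp
      · have hc' : ¬ c = s := fun h => hc h.symm
        simp [hc, hc']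
    obtain ⟨j, k, u, v, hne⟩ := hP.nonconst
    -- all monomials are proportional
    have h1 : ∀ c z, (P j).coeff c * z ^ c * (P k).eval z = (P k).coeff c * z ^ c * (P j).eval z :=
      fun c z => hcon c _ (hpart c) z j k
    have h2 : ∀ c, Polynomial.C ((P j).coeff c) * P k = Polynomial.C ((P k).coeff c) * P j := by
      intro c
      have h3 : Polynomial.X ^ c * (Polynomial.C ((P j).coeff c) * P k) =
          Polynomial.X ^ c * (Polynomial.C ((P k).coeff c) * P j) := by
        apply Polynomial.funext
        intro z
        simp only [Polynomial.eval_mul, Polynomial.eval_pow, Polynomial.eval_X, Polynomial.eval_C]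
        linear_combination h1 c z
      exact mul_left_cancel₀ (pow_ne_zero _ Polynomial.X_ne_zero) h3
    have h4 : ∀ (c : ℕ) (z : ℂ), (P j).coeff c * (P k).eval z = (P k).coeff c * (P j).eval z := by
      intro c z
      have := congrArg (Polynomial.eval z) (h2 c)
      simpa using this
    apply hne
    rw [Polynomial.eval_eq_sum_range' (n := E + 1) (by have := hP.deg j; omega) u,
      Polynomial.eval_eq_sum_range' (n := E + 1) (p := P k) (by have := hP.deg k; omega) u,
      Finset.sum_mul, Finset.sum_mul]
    refine Finset.sum_congr rfl fun c _ => ?_
    have := h4 c v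
    linear_combination u ^ c * this

/-- **Freiman homomorphisms of the Taylor exponents.** Let `X` be the projective algebraic set given by the forms
`F i` of degree at most `d`.

(1) Let `f` be an entire curve of `FlexCurve F d E` in `X`. There are rational curves `P z` of degree at most `E`
such that `P z` passes through the point `f(z)`; it is a nonconstant rational curve in `X` for all `z` outside a
closed discrete set.

(2) The Zariski closure of the union of the images of these entire curves is the Zariski closure of the union of the
nonconstant rational curves of degree at most `E` in `X`.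

(3) If `p` is the ideal of a projective variety, given by forms of degree at most `d`, with the function field `K`
and the dimension `w`, and `f` is an entire curve of `FlexCurve F d E` which is Zariski-dense in the variety, then
the variety is covered by rational curves and all its pluricanonical forms vanish. -/
theorem result (F : ι → MvPolynomial (Fin (n + 1)) ℂ) (d E : ℕ)
    (hF : ∀ i, ∃ r ≤ d, (F i).IsHomogeneous r) :
    (∀ f, FlexCurve F d E f → ∃ P : ℂ → Fin (n + 1) → Polynomial ℂ, (∀ z j, (P z j).eval 1 = f z j) ∧
      ∀ᶠ z in Filter.codiscrete ℂ, f z ≠ 0 ∧ RatCurve F E (P z)) ∧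
    SpFlex F d E = SpRat F E ∧
    (∀ (p : Ideal (MvPolynomial (Fin (n + 1)) ℂ)) (K : Type) [Field K] [Algebra ℂ K] (w : ℕ)
      (y : Fin (n + 1) → K), FunField p 1 K w y →
      (∀ x : Fin (n + 1) → ℂ, (∀ i, eval x (F i) = 0) → ∀ H ∈ p, eval x H = 0) →
      ∀ f, FlexCurve F d E f → ZDense p f Set.univ →
        Covered K ∧ ∀ N, 0 < N → ∀ ω : (Fin w → Derivation ℂ K K) → K, Pluricanonical w N ω → ω = 0) := by
  have h1 : ∀ f, FlexCurve F d E f → ∃ P : ℂ → Fin (n + 1) → Polynomial ℂ,
      (∀ z j, (P z j).eval 1 = f z j) ∧ ∀ᶠ z in Filter.codiscrete ℂ, f z ≠ 0 ∧ RatCurve F E (P z) := by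
    rintro f ⟨hf, hX, S, φ, hφ, hS, c, g, hg, hne⟩
    exact (Pool.Agent.E8helper85.DG.main_pts hF hφ hf hX hS hg hne).2
  refine ⟨h1, Set.Subset.antisymm ?_ ?_, ?_⟩
  · intro v hv G a hG hrat
    exact hv G a hG fun f hf z => Pool.Agent.E8helper85.DG.closure_pts hf.1 (h1 f hf) G hrat z
  · intro v hv G a hG hflex
    exact hv G a hG fun P hP t => hflex _ (flex_of_rat hP) t
  · intro p K _ _ w y hy hp f hfl hd
    obtain ⟨hf, hX, S, φ, hφ, hS, c, g, hg, hne⟩ := hfl
    have hc := (Pool.Agent.E8helper85.DG.main_pts hF hφ hf hX hS hg hne).1
    obtain ⟨z, j, k, hz⟩ := hne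
    exact Pool.Agent.E8helper85.DG.covered hy hf (fun z H hH => hp (f z) (hX z) H hH) hd hF
      (fun i z => hX z i) hp (Pool.Agent.E8helper85.DG.freiProp_of_hom hφ) (fun s hs => hφ.mapsTo hs)
      (fun j s hs => hS j s hs) hc (Pool.Agent.E8helper85.DG.ne_of_point hg hf hz)

end Pool.Agent.E8helper85.Variants.FreimanExponentsH85
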